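import Mathlib

set_option autoImplicit false
open Classical
open scoped Pointwise

namespace Pool.Agent.R815.EC

/-- The number of elements `a` of `A` with `1 ≤ a ≤ n`. -/
noncomputable def cnt (A : Set ℕ) (n : ℕ) : ℕ := (Finset.filter (fun a => a ∈ A) (Finset.Ioc 0 n)).card

lemma cnt_zero (A : Set ℕ) : cnt A 0 = 0 := by simp [cnt]

lemma cnt_succ_mem {A : Set ℕ} {n : ℕ} (h : n + 1 ∈ A) : cnt A (n + 1) = cnt A n + 1 := by
  unfold cnt
  have : Finset.Ioc 0 (n + 1) = insert (n + 1) (Finset.Ioc 0 n) := by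
    ext x; simp only [Finset.mem_Ioc, Finset.mem_insert]; omega
  rw [this, Finset.filter_insert, if_pos h, Finset.card_insert_of_notMem]
  simp

lemma cnt_succ_notMem {A : Set ℕ} {n : ℕ} (h : n + 1 ∉ A) : cnt A (n + 1) = cnt A n := by
  unfold cnt
  have : Finset.Ioc 0 (n + 1) = insert (n + 1) (Finset.Ioc 0 n) := by
    ext x; simp only [Finset.mem_Ioc, Finset.mem_insert]; omega
  rw [this, Finset.filter_insert, if_neg h]

lemma cnt_succ_le (A : Set ℕ) (n : ℕ) : cnt A (n + 1) ≤ cnt A n + 1 := by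
  by_cases h : n + 1 ∈ A
  · rw [cnt_succ_mem h]
  · rw [cnt_succ_notMem h]; omega

lemma cnt_le (A : Set ℕ) (n : ℕ) : cnt A n ≤ n := by
  induction n with
  | zero => simp [cnt_zero]
  | succ n ih => have := cnt_succ_le A n; omega

lemma cnt_le_succ (A : Set ℕ) (n : ℕ) : cnt A n ≤ cnt A (n + 1) := by
  by_cases h : n + 1 ∈ A
  · rw [cnt_succ_mem h]; omega
  · rw [cnt_succ_notMem h]

lemma cnt_mono_right (A : Set ℕ) {m n : ℕ} (h : m ≤ n) : cnt A m ≤ cnt A n :=
  monotone_nat_of_le_succ (cnt_le_succ A) h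

lemma cnt_add_le (A : Set ℕ) (m k : ℕ) : cnt A (m + k) ≤ cnt A m + k := by
  induction k with
  | zero => simp
  | succ k ih => have := cnt_succ_le A (m + k); rw [← add_assoc]; omega

lemma cnt_mono_left {A C : Set ℕ} {n : ℕ} (h : ∀ m ≤ n, m ∈ A → m ∈ C) : cnt A n ≤ cnt C n := by
  unfold cnt
  apply Finset.card_le_card
  intro x hx
  simp only [Finset.mem_filter, Finset.mem_Ioc] at hx ⊢
  exact ⟨hx.1, h x hx.1.2 hx.2⟩

lemma cnt_congr {A C : Set ℕ} {n : ℕ} (h : ∀ m ≤ n, (m ∈ A ↔ m ∈ C)) : cnt A n = cnt C n :=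
  le_antisymm (cnt_mono_left fun m hm => (h m hm).1) (cnt_mono_left fun m hm => (h m hm).2)

/-- The densification of `A`: the points `y` that end an interval `(t, y]` on which `A` has
density at least `1/N`. -/
def dns (N : ℕ) (A : Set ℕ) : Set ℕ :=
  {y | y = 0 ∨ ∃ t, t < y ∧ y + N * cnt A t ≤ t + N * cnt A y}

lemma dns_upper (N : ℕ) (C : Set ℕ) (x : ℕ) : cnt (dns N C) x ≤ N * cnt C x := by
  induction x using Nat.strong_induction_on with
  | _ x ih =>
    rcases Nat.eq_zero_or_pos x with rfl | hx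
    · simp [cnt_zero]
    · by_cases h : x ∈ dns N C
      · rcases h with h | ⟨t, ht, hle⟩
        · omega
        · have h1 := ih t ht
          have h2 := cnt_add_le (dns N C) t (x - t)
          rw [Nat.add_sub_cancel' ht.le] at h2
          omega
      · obtain ⟨y, rfl⟩ : ∃ y, x = y + 1 := ⟨x - 1, by omega⟩
        rw [cnt_succ_notMem h]
        have h1 := ih y (by omega)
        have h2 := Nat.mul_le_mul_left N (cnt_le_succ C y)
        omega

lemma dns_lower_aux (N : ℕ) (A : Set ℕ) (y : ℕ) :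
    ∃ t, t ≤ y ∧ N * cnt A t + (y - t) ≤ cnt (dns N A) y := by
  induction y with
  | zero => exact ⟨0, le_refl _, by simp [cnt_zero]⟩
  | succ y ih =>
    obtain ⟨t, ht, hle⟩ := ih
    by_cases h : y + 1 ∈ dns N A
    · refine ⟨t, by omega, ?_⟩
      rw [cnt_succ_mem h]
      omega
    · refine ⟨y + 1, le_refl _, ?_⟩
      have h1 : ¬ (y + 1 + N * cnt A t ≤ t + N * cnt A (y + 1)) := fun h' =>
        h (Or.inr ⟨t, by omega, h'⟩)
      rw [cnt_succ_notMem h]
      omega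

lemma dns_lower (N : ℕ) (A : Set ℕ) {a b : ℝ} (hA : ∀ n, a * n ≤ cnt A n) (hb : b ≤ 1)
    (hab : b ≤ N * a) (y : ℕ) : b * y ≤ cnt (dns N A) y := by
  obtain ⟨t, ht, hle⟩ := dns_lower_aux N A y
  have h1 : ((N * cnt A t + (y - t) : ℕ) : ℝ) ≤ cnt (dns N A) y := by exact_mod_cast hle
  push_cast [Nat.cast_sub ht] at h1
  have h2 := hA t
  have ht' : (0 : ℝ) ≤ t := Nat.cast_nonneg t
  have hyt : (0 : ℝ) ≤ (y : ℝ) - t := by
    have : (t : ℝ) ≤ y := by exact_mod_cast ht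
    linarith
  have h3 : (N : ℝ) * (a * t) ≤ N * cnt A t := mul_le_mul_of_nonneg_left h2 (Nat.cast_nonneg N)
  have h4 : b * t ≤ N * a * t := mul_le_mul_of_nonneg_right hab ht'
  have h5 : b * ((y : ℝ) - t) ≤ 1 * ((y : ℝ) - t) := mul_le_mul_of_nonneg_right hb hyt
  nlinarith

lemma zero_mem_dns (N : ℕ) (A : Set ℕ) : 0 ∈ dns N A := Or.inl rfl

/-- Elements in a translated window. -/
lemma cnt_window {A C : Set ℕ} {b : ℕ} (h : ∀ a ∈ A, a + b ∈ C) {t y : ℕ} (hty : t ≤ y) :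
    cnt A y + cnt C (t + b) ≤ cnt A t + cnt C (y + b) := by
  induction y, hty using Nat.le_induction with
  | base => omega
  | succ y hy ih =>
    by_cases hm : y + 1 ∈ A
    · rw [cnt_succ_mem hm]
      have : y + b + 1 ∈ C := by
        have := h _ hm
        rwa [show y + 1 + b = y + b + 1 by ring] at this
      rw [show y + 1 + b = y + b + 1 by ring, cnt_succ_mem this]
      omega
    · rw [cnt_succ_notMem hm]
      have := cnt_le_succ C (y + b)
      rw [show y + 1 + b = y + b + 1 by ring]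
      omega

lemma dns_add {N : ℕ} (hN : 1 ≤ N) {A B : Set ℕ} (h0 : 0 ∈ A) :
    dns N A + B ⊆ dns N (A + B) := by
  rintro _ ⟨y, hy, b, hb, rfl⟩
  have hw : ∀ a ∈ A, a + b ∈ A + B := fun a ha => Set.add_mem_add ha hb
  simp only
  rcases hy with rfl | ⟨t, ht, hle⟩
  · rcases Nat.eq_zero_or_pos b with rfl | hb0
    · exact Or.inl rfl
    · refine Or.inr ⟨b - 1, by omega, ?_⟩
      obtain ⟨c, rfl⟩ : ∃ c, b = c + 1 := ⟨b - 1, by omega⟩
      have hm : c + 1 ∈ A + B := by simpa using hw 0 h0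
      simp only [zero_add, Nat.add_sub_cancel]
      rw [cnt_succ_mem hm, mul_add]
      omega
  · refine Or.inr ⟨t + b, by omega, ?_⟩
    have h1 := cnt_window hw ht.le
    have h2 := Nat.mul_le_mul_left N h1
    rw [mul_add, mul_add] at h2
    omega

lemma dns_sum_count {N : ℕ} (hN : 1 ≤ N) {A B : Set ℕ} (h0 : 0 ∈ A) (x : ℕ) :
    cnt (dns N A + B) x ≤ N * cnt (A + B) x :=
  (cnt_mono_left fun _ _ hm => dns_add hN h0 hm).trans (dns_upper N (A + B) x)

/-! Schnirelmann density through `cnt`. -/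

lemma sd_le (A : Set ℕ) (n : ℕ) : schnirelmannDensity A * n ≤ cnt A n :=
  schnirelmannDensity_mul_le_card_filter

lemma le_sd {A : Set ℕ} {a : ℝ} (h : ∀ n, a * n ≤ cnt A n) : a ≤ schnirelmannDensity A := by
  rw [le_schnirelmannDensity_iff]
  intro n hn
  have hn' : (0 : ℝ) < n := by exact_mod_cast hn
  rw [le_div_iff₀ hn']
  exact h n

lemma sd_le_of {A : Set ℕ} {a : ℝ} {n : ℕ} (hn : 0 < n) (h : (cnt A n : ℝ) ≤ a * n) :
    schnirelmannDensity A ≤ a := by
  have h1 := sd_le A n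
  have hn' : (0 : ℝ) < n := by exact_mod_cast hn
  exact le_of_mul_le_mul_right (h1.trans h) hn'

lemma exists_lt_of_sd_lt {A : Set ℕ} {a : ℝ} (h : schnirelmannDensity A < a) :
    ∃ n : ℕ, 0 < n ∧ (cnt A n : ℝ) < a * n := by
  rw [schnirelmannDensity_lt_iff] at h
  obtain ⟨n, hn, hlt⟩ := h
  refine ⟨n, hn, ?_⟩
  have hn' : (0 : ℝ) < n := by exact_mod_cast hn
  rw [div_lt_iff₀ hn'] at hlt
  exact hlt

lemma sd_mono {A C : Set ℕ} (h : A ⊆ C) : schnirelmannDensity A ≤ schnirelmannDensity C :=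
  schnirelmannDensity_le_of_subset h

lemma one_mem_of_pos {A : Set ℕ} (h : 0 < schnirelmannDensity A) : 1 ∈ A := by
  by_contra h1
  rw [schnirelmannDensity_eq_zero_of_one_notMem h1] at h
  exact lt_irrefl _ h

lemma subset_add {A B : Set ℕ} (hB : 0 ∈ B) : A ⊆ A + B := fun a ha =>
  ⟨a, ha, 0, hB, by simp⟩

lemma subset_add' {A B : Set ℕ} (hA : 0 ∈ A) : B ⊆ A + B := fun b hb =>
  ⟨0, hA, b, hb, by simp⟩

end Pool.Agent.R815.EC
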