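import Pool.Agent.R815.EC.Basic

set_option autoImplicit false
open Classical
open scoped Pointwise

namespace Pool.Agent.R815.EC

/-- The concatenation: `S` up to `X`, followed by the translate of `W`. -/
def cat (S W : Set ℕ) (X : ℕ) : Set ℕ := {n | (n ≤ X ∧ n ∈ S) ∨ ∃ z, 0 < z ∧ z ∈ W ∧ n = X + z}

lemma mem_cat_low {S W : Set ℕ} {X n : ℕ} (h : n ≤ X) : n ∈ cat S W X ↔ n ∈ S := by
  constructor
  · rintro (⟨_, h2⟩ | ⟨z, hz, _, he⟩)
    · exact h2
    · omega
  · intro h2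
    exact Or.inl ⟨h, h2⟩

lemma mem_cat_high {S W : Set ℕ} {X z : ℕ} (h : 0 < z) : X + z ∈ cat S W X ↔ z ∈ W := by
  constructor
  · rintro (⟨h1, _⟩ | ⟨z', _, hz', he⟩)
    · omega
    · have : z = z' := by omega
      rw [this]; exact hz'
  · intro h2
    exact Or.inr ⟨z, h, h2, rfl⟩

lemma cnt_cat_low {S W : Set ℕ} {X n : ℕ} (h : n ≤ X) : cnt (cat S W X) n = cnt S n :=
  cnt_congr fun _ hm => mem_cat_low (hm.trans h)

lemma cnt_cat_high (S W : Set ℕ) (X z : ℕ) : cnt (cat S W X) (X + z) = cnt S X + cnt W z := by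
  induction z with
  | zero => simp [cnt_zero, cnt_cat_low (le_refl X)]
  | succ z ih =>
    rw [← add_assoc]
    by_cases h : z + 1 ∈ W
    · have hm : X + z + 1 ∈ cat S W X := (mem_cat_high (by omega : 0 < z + 1)).2 h
      rw [cnt_succ_mem h, cnt_succ_mem hm, ih]
      ring
    · have hm : X + z + 1 ∉ cat S W X := fun h' =>
        h ((mem_cat_high (by omega : 0 < z + 1)).1 h')
      rw [cnt_succ_notMem h, cnt_succ_notMem hm, ih]

lemma cat_half {S W : Set ℕ} {X : ℕ} (hS : ∀ y : ℕ, (y : ℝ) / 2 ≤ cnt S y)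
    (hW : ∀ y : ℕ, (y : ℝ) / 2 ≤ cnt W y) (y : ℕ) : (y : ℝ) / 2 ≤ cnt (cat S W X) y := by
  rcases le_total y X with h | h
  · rw [cnt_cat_low h]; exact hS y
  · obtain ⟨z, rfl⟩ := Nat.exists_eq_add_of_le h
    rw [cnt_cat_high]
    have h1 := hS X
    have h2 := hW z
    push_cast
    linarith

/-- The number of elements of `[0, X] + B` up to `y`. -/
lemma cnt_translate (B : Set ℕ) (s y : ℕ) : cnt {n | ∃ b ∈ B, n = s + b} y ≤ cnt B y + 1 := by
  unfold cnt
  have hsub : Finset.filter (fun a => a ∈ {n | ∃ b ∈ B, n = s + b}) (Finset.Ioc 0 y) ⊆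
      insert s ((Finset.filter (fun a => a ∈ B) (Finset.Ioc 0 y)).image (fun b => s + b)) := by
    intro n hn
    simp only [Finset.mem_filter, Finset.mem_Ioc, Set.mem_ofPred_eq] at hn
    obtain ⟨⟨h1, h2⟩, b, hb, he⟩ := hn
    rw [Finset.mem_insert, Finset.mem_image]
    rcases Nat.eq_zero_or_pos b with h0 | h0
    · left; omega
    · right
      refine ⟨b, ?_, he.symm⟩
      simp only [Finset.mem_filter, Finset.mem_Ioc]
      exact ⟨⟨h0, by omega⟩, hb⟩
  refine (Finset.card_le_card hsub).trans ((Finset.card_insert_le _ _).trans ?_)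
  have := Finset.card_image_le (s := Finset.filter (fun a => a ∈ B) (Finset.Ioc 0 y))
    (f := fun b => s + b)
  omega

lemma cnt_union_le (A C : Set ℕ) (y : ℕ) : cnt (A ∪ C) y ≤ cnt A y + cnt C y := by
  unfold cnt
  refine le_trans (Finset.card_le_card ?_) (Finset.card_union_le _ _)
  intro n hn
  simp only [Finset.mem_filter, Finset.mem_union, Set.mem_union] at hn ⊢
  tauto

lemma cnt_init (B : Set ℕ) (X y : ℕ) :
    cnt {n | ∃ s, s ≤ X ∧ ∃ b ∈ B, n = s + b} y ≤ (X + 1) * (cnt B y + 1) := by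
  induction X with
  | zero =>
    refine (cnt_mono_left (C := {n | ∃ b ∈ B, n = 0 + b}) ?_).trans
      ((cnt_translate B 0 y).trans (by omega))
    rintro m _ ⟨s, hs, b, hb, he⟩
    exact ⟨b, hb, by omega⟩
  | succ X ih =>
    refine (cnt_mono_left (C := {n | ∃ s, s ≤ X ∧ ∃ b ∈ B, n = s + b} ∪
      {n | ∃ b ∈ B, n = (X + 1) + b}) ?_).trans ((cnt_union_le _ _ _).trans ?_)
    · rintro m _ ⟨s, hs, b, hb, he⟩
      rcases Nat.lt_or_ge X s with h | h
      · right
        exact ⟨b, hb, by omega⟩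
      · left
        exact ⟨s, h, b, hb, he⟩
    · have := cnt_translate B (X + 1) y
      rw [show X + 1 + 1 = (X + 1) + 1 from rfl, add_mul (X + 1) 1]
      omega

lemma cnt_cat_add (S W B : Set ℕ) (X x : ℕ) :
    cnt (cat S W X + B) (X + x) ≤ (X + 1) * (cnt B x + X + 1) + (X + cnt (W + B) x) := by
  have h1 : cnt (cat S W X + B) (X + x) ≤
      cnt ({n | ∃ s, s ≤ X ∧ ∃ b ∈ B, n = s + b} ∪ cat Set.univ (W + B) X) (X + x) := by
    apply cnt_mono_left
    rintro _ _ ⟨s, hs, b, hb, rfl⟩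
    simp only
    rcases hs with ⟨hs, _⟩ | ⟨z, hz, hzW, rfl⟩
    · left; exact ⟨s, hs, b, hb, rfl⟩
    · right
      right
      exact ⟨z + b, by omega, Set.add_mem_add hzW hb, by ring⟩
  refine h1.trans ((cnt_union_le _ _ _).trans ?_)
  rw [cnt_cat_high]
  have h2 := cnt_init B X (X + x)
  have h3 : cnt B (X + x) ≤ cnt B x + X := by
    rw [add_comm X x]; exact cnt_add_le B x X
  have h4 : (X + 1) * (cnt B (X + x) + 1) ≤ (X + 1) * (cnt B x + X + 1) :=
    Nat.mul_le_mul_left _ (by omega)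
  have h5 := cnt_le Set.univ X
  omega

end Pool.Agent.R815.EC
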