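import Pool.Agent.R815.EC.Glue

set_option autoImplicit false
open Classical
open scoped Pointwise

namespace Pool.Agent.R815.EC

/-- One density level controls all smaller ones. -/
theorem transfer {B : Set ℕ} {β K M : ℝ} (hβ : 0 < β) (hβ1 : β ≤ 1) (hMK : M < K)
    (H : ∀ A : Set ℕ, 0 ∈ A → β ≤ schnirelmannDensity A → K * β ≤ schnirelmannDensity (A + B)) :
    ∃ δ : ℝ, 0 < δ ∧ ∀ A : Set ℕ, 0 ∈ A → 0 < schnirelmannDensity A → schnirelmannDensity A < δ →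
      M * schnirelmannDensity A ≤ schnirelmannDensity (A + B) := by
  rcases le_or_gt M 0 with hM | hM
  · refine ⟨1, one_pos, fun A _ _ _ => ?_⟩
    exact (mul_nonpos_of_nonpos_of_nonneg hM schnirelmannDensity_nonneg).trans
      schnirelmannDensity_nonneg
  · have hKM : 0 < K - M := by linarith
    refine ⟨(K - M) * β / M, by positivity, ?_⟩
    intro A h0 hpos hlt
    obtain ⟨N, hN⟩ : ∃ N : ℕ, N = ⌈β / schnirelmannDensity A⌉₊ := ⟨_, rfl⟩
    have hq : 0 < β / schnirelmannDensity A := by positivity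
    have hN1 : β / schnirelmannDensity A ≤ N := by rw [hN]; exact Nat.le_ceil _
    have hN2 : (N : ℝ) < β / schnirelmannDensity A + 1 := by
      rw [hN]; exact Nat.ceil_lt_add_one hq.le
    have hNpos : 1 ≤ N := by rw [hN]; exact Nat.one_le_ceil_iff.2 hq
    have hNr : (0 : ℝ) < N := by exact_mod_cast hNpos
    have hN3 : β ≤ N * schnirelmannDensity A := by rwa [div_le_iff₀ hpos] at hN1
    have hN4 : (N : ℝ) * schnirelmannDensity A ≤ β + schnirelmannDensity A := by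
      have := mul_le_mul_of_nonneg_right hN2.le hpos.le
      rwa [add_mul, div_mul_cancel₀ _ hpos.ne', one_mul] at this
    have hW : β ≤ schnirelmannDensity (dns N A) := le_sd (dns_lower N A (sd_le A) hβ1 hN3)
    have h1 := H (dns N A) (zero_mem_dns N A) hW
    have h2 : K * β / N ≤ schnirelmannDensity (A + B) := by
      apply le_sd
      intro n
      have h3 := sd_le (dns N A + B) n
      have h4 : (cnt (dns N A + B) n : ℝ) ≤ N * cnt (A + B) n := by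
        exact_mod_cast dns_sum_count hNpos h0 n
      have h5 : K * β * n ≤ schnirelmannDensity (dns N A + B) * n :=
        mul_le_mul_of_nonneg_right h1 (Nat.cast_nonneg n)
      rw [div_mul_eq_mul_div, div_le_iff₀ hNr, mul_comm (cnt (A + B) n : ℝ)]
      linarith
    refine le_trans ?_ h2
    rw [le_div_iff₀ hNr]
    rw [lt_div_iff₀ hM] at hlt
    have h6 : M * (N * schnirelmannDensity A) ≤ M * (β + schnirelmannDensity A) :=
      mul_le_mul_of_nonneg_left hN4 hM.le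
    nlinarith

lemma key {B : Set ℕ}
    (hneg : ∀ c : ℝ, 1 < c → ∀ δ : ℝ, 0 < δ → ∃ A : Set ℕ, 0 ∈ A ∧ 0 < schnirelmannDensity A ∧
      schnirelmannDensity A < δ ∧ schnirelmannDensity (A + B) < c * schnirelmannDensity A)
    (hB : 0 ∈ B) (ε : ℝ) (hε : 0 < ε) (hε1 : ε ≤ 1) (X : ℕ) :
    ∃ x : ℕ, X < x ∧ ∃ W : Set ℕ, 0 ∈ W ∧ (∀ y : ℕ, (y : ℝ) / 2 ≤ cnt W y) ∧
      (cnt (W + B) x : ℝ) ≤ (1 / 2 + ε) * x ∧ (cnt B x : ℝ) ≤ ε * x := by
  have hX : (0 : ℝ) ≤ X := Nat.cast_nonneg X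
  obtain ⟨A, h0, hpos, hlt, hAB⟩ := hneg (1 + ε / 2) (by linarith) (ε / (4 * (X + 1)))
    (by positivity)
  obtain ⟨n, hn, hcn⟩ := exists_lt_of_sd_lt hAB
  obtain ⟨α, hα⟩ : ∃ α : ℝ, α = schnirelmannDensity A := ⟨_, rfl⟩
  have hsd := sd_le A
  have h1A : 1 ∈ A := one_mem_of_pos hpos
  rw [← hα] at hpos hlt hAB hcn hsd
  have hnr : (1 : ℝ) ≤ n := by exact_mod_cast hn
  have hcnt1 : 1 ≤ cnt (A + B) n := by
    have h2 : cnt (A + B) (0 + 1) = cnt (A + B) 0 + 1 := cnt_succ_mem (subset_add hB h1A)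
    have h3 := cnt_mono_right (A + B) (show 0 + 1 ≤ n by omega)
    omega
  have hcnt1r : (1 : ℝ) ≤ cnt (A + B) n := by exact_mod_cast hcnt1
  have hlt' : α * (4 * (X + 1)) < ε := by rwa [lt_div_iff₀ (by positivity)] at hlt
  have hα4 : 4 * α ≤ ε := by nlinarith
  obtain ⟨N, hN⟩ : ∃ N : ℕ, N = ⌈(1 / 2) / α⌉₊ := ⟨_, rfl⟩
  have hq : 0 < (1 / 2) / α := by positivity
  have hN1 : (1 / 2) / α ≤ N := by rw [hN]; exact Nat.le_ceil _
  have hN2 : (N : ℝ) < (1 / 2) / α + 1 := by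
    rw [hN]; exact Nat.ceil_lt_add_one hq.le
  have hNpos : 1 ≤ N := by rw [hN]; exact Nat.one_le_ceil_iff.2 hq
  have hN3 : 1 / 2 ≤ N * α := by rwa [div_le_iff₀ hpos] at hN1
  have hN4 : (N : ℝ) * α ≤ 1 / 2 + α := by
    have := mul_le_mul_of_nonneg_right hN2.le hpos.le
    rwa [add_mul, div_mul_cancel₀ _ hpos.ne', one_mul] at this
  refine ⟨n, ?_, dns N A, zero_mem_dns N A, ?_, ?_, ?_⟩
  · have h5 : (X : ℝ) < n := by
      by_contra hcon
      push Not at hcon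
      have h6 : (1 + ε / 2) * α * n ≤ (1 + ε / 2) * α * (X + 1) :=
        mul_le_mul_of_nonneg_left (by linarith) (by positivity)
      nlinarith
    exact_mod_cast h5
  · intro y
    have := dns_lower N A hsd (by norm_num : (1 / 2 : ℝ) ≤ 1) hN3 y
    linarith
  · have h4 : (cnt (dns N A + B) n : ℝ) ≤ N * cnt (A + B) n := by
      exact_mod_cast dns_sum_count hNpos h0 n
    have h5 : (N : ℝ) * cnt (A + B) n ≤ N * ((1 + ε / 2) * α * n) :=
      mul_le_mul_of_nonneg_left hcn.le (Nat.cast_nonneg N)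
    have h6 : N * ((1 + ε / 2) * α * n) = (N * α) * ((1 + ε / 2) * n) := by ring
    have h7 : ((N : ℝ) * α) * ((1 + ε / 2) * n) ≤ (1 / 2 + α) * ((1 + ε / 2) * n) :=
      mul_le_mul_of_nonneg_right hN4 (by positivity)
    have h8 : (1 / 2 + α) * (1 + ε / 2) ≤ 1 / 2 + ε := by nlinarith
    have h9 : (1 / 2 + α) * ((1 + ε / 2) * n) ≤ (1 / 2 + ε) * n := by
      rw [← mul_assoc]
      exact mul_le_mul_of_nonneg_right h8 (by positivity)
    linarith
  · have h4 : cnt B n ≤ cnt (A + B) n := cnt_mono_left fun _ _ hm => subset_add' h0 hm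
    have h5 : (cnt B n : ℝ) ≤ cnt (A + B) n := by exact_mod_cast h4
    have h6 : (1 + ε / 2) * α ≤ ε := by nlinarith
    have h7 : (1 + ε / 2) * α * n ≤ ε * n := mul_le_mul_of_nonneg_right h6 (by positivity)
    linarith

lemma step {B : Set ℕ}
    (hneg : ∀ c : ℝ, 1 < c → ∀ δ : ℝ, 0 < δ → ∃ A : Set ℕ, 0 ∈ A ∧ 0 < schnirelmannDensity A ∧
      schnirelmannDensity A < δ ∧ schnirelmannDensity (A + B) < c * schnirelmannDensity A)
    (hB : 0 ∈ B) (ε : ℝ) (hε : 0 < ε) (S : Set ℕ) (hS0 : 0 ∈ S)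
    (hS : ∀ y : ℕ, (y : ℝ) / 2 ≤ cnt S y) (X : ℕ) :
    ∃ x : ℕ, X < x ∧ ∃ S' : Set ℕ, 0 ∈ S' ∧ (∀ y : ℕ, (y : ℝ) / 2 ≤ cnt S' y) ∧
      (∀ n ≤ X, (n ∈ S' ↔ n ∈ S)) ∧ (cnt (S' + B) x : ℝ) ≤ (1 / 2 + ε) * x := by
  have hX : (0 : ℝ) ≤ X := Nat.cast_nonneg X
  obtain ⟨e, he⟩ : ∃ e : ℝ, e = min ε 1 := ⟨_, rfl⟩
  have he0 : 0 < e := by rw [he]; exact lt_min hε one_pos
  have he1 : e ≤ 1 := by rw [he]; exact min_le_right _ _
  have heε : e ≤ ε := by rw [he]; exact min_le_left _ _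
  have hd : 0 < e / (4 * (X + 1)) := by positivity
  have hd1 : e / (4 * (X + 1)) ≤ 1 := by
    rw [div_le_one (by positivity)]; nlinarith
  obtain ⟨x, hx, W, hW0, hW, hWB, hBx⟩ := key hneg hB (e / (4 * (X + 1))) hd hd1
    (max X ⌈(4 * ((X + 1) ^ 2 + X)) / e⌉₊)
  have hx1 : ⌈(4 * (((X : ℝ) + 1) ^ 2 + X)) / e⌉₊ ≤ x := (le_max_right _ _).trans hx.le
  have hx2 : (4 * (((X : ℝ) + 1) ^ 2 + X)) / e ≤ x := (Nat.le_ceil _).trans (by exact_mod_cast hx1)
  rw [div_le_iff₀ he0] at hx2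
  have hx3 : (0 : ℝ) ≤ x := Nat.cast_nonneg x
  refine ⟨X + x, by have := (le_max_left X ⌈(4 * (((X : ℝ) + 1) ^ 2 + X)) / e⌉₊).trans_lt hx; omega,
    cat S W X, (mem_cat_low (Nat.zero_le X)).2 hS0, cat_half hS hW, fun n hn => mem_cat_low hn, ?_⟩
  have h1 := cnt_cat_add S W B X x
  have h2 : (cnt (cat S W X + B) (X + x) : ℝ) ≤
      (X + 1) * (cnt B x + X + 1) + (X + cnt (W + B) x) := by exact_mod_cast h1
  have h3 : ((X : ℝ) + 1) * cnt B x ≤ (X + 1) * (e / (4 * (X + 1)) * x) :=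
    mul_le_mul_of_nonneg_left hBx (by positivity)
  have h4 : ((X : ℝ) + 1) * (e / (4 * (X + 1)) * x) = e / 4 * x := by
    field_simp
  have h5 : e / (4 * (X + 1)) ≤ e / 4 := by
    apply div_le_div_of_nonneg_left he0.le (by norm_num)
    linarith
  have h6 : (1 / 2 + e / (4 * (X + 1))) * x ≤ (1 / 2 + e / 4) * x :=
    mul_le_mul_of_nonneg_right (by linarith) hx3
  have h7 : e * x ≤ ε * x := mul_le_mul_of_nonneg_right heε hx3
  have h8 : 0 ≤ ε * X := by positivity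
  push_cast
  nlinarith

theorem essential_gt_one {B : Set ℕ} (hB : 0 ∈ B)
    (hess : ∀ A : Set ℕ, 0 ∈ A → 0 < schnirelmannDensity A → schnirelmannDensity A < 1 →
        schnirelmannDensity A < schnirelmannDensity (A + B)) :
    ∃ c : ℝ, 1 < c ∧ ∃ δ : ℝ, 0 < δ ∧ ∀ A : Set ℕ, 0 ∈ A → 0 < schnirelmannDensity A →
      schnirelmannDensity A < δ → c * schnirelmannDensity A ≤ schnirelmannDensity (A + B) := by
  by_contra hcon
  have hneg : ∀ c : ℝ, 1 < c → ∀ δ : ℝ, 0 < δ → ∃ A : Set ℕ, 0 ∈ A ∧ 0 < schnirelmannDensity A ∧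
      schnirelmannDensity A < δ ∧ schnirelmannDensity (A + B) < c * schnirelmannDensity A := by
    intro c hc δ hδ
    by_contra h
    apply hcon
    refine ⟨c, hc, δ, hδ, fun A h0 h1 h2 => ?_⟩
    by_contra h3
    exact h ⟨A, h0, h1, h2, not_le.1 h3⟩
  have hstep : ∀ (i : ℕ) (p : {p : Set ℕ × ℕ // 0 ∈ p.1 ∧ ∀ y : ℕ, (y : ℝ) / 2 ≤ cnt p.1 y}),
      ∃ q : {p : Set ℕ × ℕ // 0 ∈ p.1 ∧ ∀ y : ℕ, (y : ℝ) / 2 ≤ cnt p.1 y},
        p.1.2 < q.1.2 ∧ (∀ n ≤ p.1.2, (n ∈ q.1.1 ↔ n ∈ p.1.1)) ∧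
        (cnt (q.1.1 + B) q.1.2 : ℝ) ≤ (1 / 2 + 1 / ((i : ℝ) + 1)) * q.1.2 := by
    intro i p
    obtain ⟨x, hx, S', h0, hh, hag, hc⟩ := step hneg hB (1 / ((i : ℝ) + 1)) (by positivity)
      p.1.1 p.2.1 p.2.2 p.1.2
    exact ⟨⟨(S', x), h0, hh⟩, hx, hag, hc⟩
  choose f hf1 hf2 hf3 using hstep
  have hbase : 0 ∈ ((Set.univ : Set ℕ), 0).1 ∧ ∀ y : ℕ, (y : ℝ) / 2 ≤ cnt ((Set.univ : Set ℕ), 0).1 y := by
    refine ⟨Set.mem_univ 0, fun y => ?_⟩
    have : cnt Set.univ y = y := by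
      induction y with
      | zero => exact cnt_zero _
      | succ y ih => rw [cnt_succ_mem (Set.mem_univ _), ih]
    simp only
    rw [this]
    have : (0 : ℝ) ≤ y := Nat.cast_nonneg y
    linarith
  let st : ℕ → {p : Set ℕ × ℕ // 0 ∈ p.1 ∧ ∀ y : ℕ, (y : ℝ) / 2 ≤ cnt p.1 y} := fun n =>
    Nat.rec ⟨((Set.univ : Set ℕ), 0), hbase⟩ (fun i p => f i p) n
  have hst : ∀ i, st (i + 1) = f i (st i) := fun i => rfl
  have hmono : StrictMono fun i => (st i).1.2 := by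
    apply strictMono_nat_of_lt_succ
    intro i
    rw [hst]
    exact hf1 i (st i)
  have hle : ∀ i, i ≤ (st i).1.2 := fun i => hmono.le_apply
  have hag : ∀ i j, i ≤ j → ∀ n ≤ (st i).1.2, (n ∈ (st j).1.1 ↔ n ∈ (st i).1.1) := by
    intro i j hij
    induction j, hij using Nat.le_induction with
    | base => intro n _; exact Iff.rfl
    | succ j hj ih =>
      intro n hn
      rw [hst]
      have h1 : n ≤ (st j).1.2 := hn.trans (hmono.monotone hj)
      exact (hf2 j (st j) n h1).trans (ih n hn)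
  let A : Set ℕ := {n | n ∈ (st n).1.1}
  have hA : ∀ i n, n ≤ (st i).1.2 → (n ∈ A ↔ n ∈ (st i).1.1) := by
    intro i n hn
    rcases le_total i n with h | h
    · exact hag i n h n hn
    · exact (hag n i h n (hle n)).symm
  have h0A : 0 ∈ A := (st 0).2.1
  have hhalf : 1 / 2 ≤ schnirelmannDensity A := by
    apply le_sd
    intro n
    have h1 : cnt A n = cnt (st n).1.1 n := cnt_congr fun m hm => hA n m (hm.trans (hle n))
    rw [h1]
    have := (st n).2.2 n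
    linarith
  have hAB : ∀ i : ℕ, schnirelmannDensity (A + B) ≤ 1 / 2 + 1 / ((i : ℝ) + 1) := by
    intro i
    have hpos : 0 < (st (i + 1)).1.2 := lt_of_lt_of_le (Nat.succ_pos i) (hle (i + 1))
    apply sd_le_of hpos
    have h1 : cnt (A + B) (st (i + 1)).1.2 ≤ cnt ((st (i + 1)).1.1 + B) (st (i + 1)).1.2 := by
      apply cnt_mono_left
      rintro _ hm ⟨a, ha, b, hb, rfl⟩
      simp only at hm ⊢
      exact Set.add_mem_add ((hA (i + 1) a (by omega)).1 ha) hb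
    have h2 := hf3 i (st i)
    rw [← hst] at h2
    exact le_trans (by exact_mod_cast h1) h2
  have hAB' : schnirelmannDensity (A + B) ≤ 1 / 2 := by
    by_contra hcon2
    push Not at hcon2
    obtain ⟨i, hi⟩ := exists_nat_one_div_lt (sub_pos.2 hcon2)
    have := hAB i
    linarith
  have hmonoσ : schnirelmannDensity A ≤ schnirelmannDensity (A + B) := sd_mono (subset_add hB)
  have := hess A h0A (by linarith) (by linarith)
  linarith

end Pool.Agent.R815.EC
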